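import Pool.Agent.Lib.MP_6bc78b_nt.MS.QZ.Iface

/-! BIU: the blocks partition the primes -/

set_option autoImplicit false

open Complex Filter Topology MeasureTheory ArithmeticFunction

namespace Pool.Agent.Lib.MP_6bc78b_nt.MS.QZ.H91

open Pool.Agent.Lib.MP_6bc78b_nt.MS Pool.Agent.Lib.MP_6bc78b_nt.MS.QZ

theorem mem_prs {a b : ℝ} {p : ℕ} : p ∈ prs a b ↔ p.Prime ∧ a < (p : ℝ) ∧ (p : ℝ) ≤ b := by
  unfold prs
  rw [Finset.mem_filter, Finset.mem_Icc]
  constructor
  · rintro ⟨⟨_, h2⟩, h3, h4⟩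
    exact ⟨h3, h4, (Nat.le_floor_iff' h3.ne_zero).1 h2⟩
  · rintro ⟨h1, h2, h3⟩
    exact ⟨⟨h1.one_lt.le, (Nat.le_floor_iff' h1.ne_zero).2 h3⟩, h1, h2⟩

theorem isPr_prs (a b : ℝ) : IsPr (prs a b) := fun _ hp => (mem_prs.1 hp).1

theorem prs_union {a b c : ℝ} (hab : a ≤ b) (hbc : b ≤ c) :
    prs a c = prs a b ∪ prs b c := by
  ext p
  rw [Finset.mem_union, mem_prs, mem_prs, mem_prs]
  constructor
  · rintro ⟨h1, h2, h3⟩
    rcases le_or_gt (p : ℝ) b with h | h
    · exact Or.inl ⟨h1, h2, h⟩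
    · exact Or.inr ⟨h1, h, h3⟩
  · rintro (⟨h1, h2, h3⟩ | ⟨h1, h2, h3⟩)
    · exact ⟨h1, h2, h3.trans hbc⟩
    · exact ⟨h1, hab.trans_lt h2, h3⟩

theorem prs_disjoint {a b c d : ℝ} (hbc : b ≤ c) : Disjoint (prs a b) (prs c d) := by
  rw [Finset.disjoint_left]
  intro p hp hq
  have h1 := (mem_prs.1 hp).2.2
  have h2 := (mem_prs.1 hq).2.1
  linarith

theorem dl_mono (T : ℝ) : Monotone (dl T) := by
  intro i j hij
  unfold dl
  have : (i : ℝ) ≤ j := by exact_mod_cast hij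
  exact div_le_div_of_nonneg_right (Real.exp_le_exp.2 this) (sq_nonneg _)

theorem dl_nonneg (T : ℝ) (j : ℕ) : 0 ≤ dl T j := by
  unfold dl
  positivity

theorem yy_mono {T : ℝ} (hT : 1 ≤ T) : Monotone (yy T) := fun _ _ hij =>
  Real.rpow_le_rpow_of_exponent_le hT (dl_mono T hij)

theorem one_le_yy {T : ℝ} (hT : 1 ≤ T) (j : ℕ) : 1 ≤ yy T j :=
  Real.one_le_rpow hT (dl_nonneg T j)

theorem isPr_SS (T : ℝ) (i : ℕ) : IsPr (SS T i) := by
  cases i with
  | zero => exact isPr_prs _ _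
  | succ i => exact isPr_prs _ _

theorem disj {T : ℝ} (hT : 1 ≤ T) {i j : ℕ} (hij : i < j) : Disjoint (SS T i) (SS T j) := by
  obtain ⟨j, rfl⟩ : ∃ k, j = k + 1 := ⟨j - 1, by omega⟩
  have h : yy T i ≤ yy T j := yy_mono hT (by omega)
  cases i with
  | zero => exact prs_disjoint h
  | succ i => exact prs_disjoint h

theorem biU {T : ℝ} (hT : 1 ≤ T) (j : ℕ) :
    (Finset.range (j + 1)).biUnion (SS T) = prs 1 (yy T j) := by
  induction j with
  | zero =>
    rw [zero_add, Finset.range_one, Finset.singleton_biUnion]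
    rfl
  | succ j ih =>
    rw [Finset.range_add_one, Finset.biUnion_insert, ih,
      prs_union (one_le_yy hT j) (yy_mono hT (Nat.le_succ j)), Finset.union_comm]
    rfl

theorem biu (hS : SclStatement) : BiuStatement := by
  obtain ⟨T0, h3, h⟩ := hS
  refine ⟨T0, h3, fun T hT => ?_⟩
  obtain ⟨hl, _, _, ⟨_, hJ⟩, _⟩ := h T hT
  have hT1 : 1 ≤ T := by linarith
  have hT0 : 0 < T := by linarith
  refine ⟨isPr_SS T, fun i j hij => ?_, biU hT1, fun j hj => ?_⟩
  · rcases lt_or_gt_of_ne hij with h | h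
    · exact disj hT1 h
    · exact (disj hT1 h).symm
  · have hy1 := one_le_yy hT1 j
    have hyT : yy T j ≤ T := by
      unfold yy
      calc T ^ dl T j ≤ T ^ (1 : ℝ) :=
            Real.rpow_le_rpow_of_exponent_le hT1 (by
              have := dl_mono T hj
              have h2 : (3 : ℝ) / 10 ^ 12 ≤ 1 := by norm_num
              linarith)
        _ = T := Real.rpow_one T
    refine ⟨?_, yy_mono hT1 (Nat.zero_le j), hyT, prs_disjoint le_rfl, prs_union hy1 hyT⟩
    have hll : 0 < ll T := by linarith [show (0 : ℝ) < 10 ^ 7 by norm_num]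
    have hL0 : 0 < Real.log T := Real.log_pos (by linarith)
    have hL : Real.log T = Real.exp (ll T) := by
      unfold ll
      rw [Real.exp_log hL0]
    have h4 : ll T ^ 3 / 6 ≤ Real.log T := by
      rw [hL]
      have := Real.pow_div_factorial_le_exp (ll T) hll.le 3
      norm_num [Nat.factorial] at this
      exact this
    have h5 : 2 ≤ Real.log T * dl T 0 := by
      unfold dl
      rw [Nat.cast_zero, Real.exp_zero, mul_one_div, le_div_iff₀ (by positivity)]
      have h6 : (12 : ℝ) ≤ ll T := by linarith [show (12 : ℝ) ≤ 10 ^ 7 by norm_num]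
      have h7 : 12 * ll T ^ 2 ≤ ll T * ll T ^ 2 :=
        mul_le_mul_of_nonneg_right h6 (sq_nonneg _)
      have h8 : ll T * ll T ^ 2 = ll T ^ 3 := by ring
      linarith
    unfold yy
    rw [Real.rpow_def_of_pos hT0]
    have h9 : Real.log T * dl T 0 + 1 ≤ Real.exp (Real.log T * dl T 0) := Real.add_one_le_exp _
    linarith

end Pool.Agent.Lib.MP_6bc78b_nt.MS.QZ.H91
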